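import Pool.Agent.H434Z.ShadowDefs
import Pool.Agent.H434Z.ShadowShift

set_option autoImplicit false

open scoped ENNReal

namespace Pool.Agent.Results.MP_0764b2_an.Counterexample

open Pool.Agent.H434Z.Shadow (Aut act UnifBounded Shadowing GenHyperbolic)

/-- For real or complex scalars and every `1 ≤ p ≤ ∞` there are a separable Banach space `X` and a
sequence `S` of invertible bounded operators on `X`, uniformly bounded together with their
inverses, such that the shift operator generated by `S` on the bilateral sequence space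
`ℓ_p(X)` has the shadowing property and is not generalized hyperbolic. -/
theorem result (𝕜 : Type) [RCLike 𝕜] (p : ℝ≥0∞) [Fact (1 ≤ p)] :
    ∃ (X : Type) (_ : NormedAddCommGroup X) (_ : NormedSpace 𝕜 X) (_ : CompleteSpace X)
      (_ : TopologicalSpace.SeparableSpace X) (S : ℤ → Aut 𝕜 X), UnifBounded S ∧
      ∃ σ : Aut 𝕜 (lp (fun _ : ℤ => X) p),
        (∀ (x : lp (fun _ : ℤ => X) p) (n : ℤ), act σ x n = act (S (n + 1)) (x (n + 1))) ∧
        Shadowing σ ∧ ¬ GenHyperbolic σ :=
  Pool.Agent.H434Z.Shadow.main 𝕜 p

end Pool.Agent.Results.MP_0764b2_an.Counterexample
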